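import Mathlib

set_option autoImplicit false

namespace Pool.Agent.Results.MP_14365a_gt.Example

open Set Filter Topology

/-- `T'(X)`: real functions continuous on some dense open set. -/
def T1set (X : Type) [TopologicalSpace X] : Set (X → ℝ) :=
  {f | ∃ U : Set X, IsOpen U ∧ Dense U ∧ ContinuousOn f U}

/-- `T''(X)`: real functions continuous on some dense cozero set. -/
def T2set (X : Type) [TopologicalSpace X] : Set (X → ℝ) :=
  {f | ∃ h : C(X, ℝ), Dense {x | h x ≠ 0} ∧ ContinuousOn f {x | h x ≠ 0}}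

/-- Every closed set is a zero set. -/
def PerfNormal (X : Type) [TopologicalSpace X] : Prop :=
  ∀ F : Set X, IsClosed F → ∃ h : C(X, ℝ), F = {x | h x = 0}

theorem lim_pure (h : C(Ultrafilter ℕ, ℝ)) (q : Ultrafilter ℕ) :
    Tendsto (fun n : ℕ => h (pure n)) q (𝓝 (h q)) :=
  (h.continuous.tendsto q).comp (Ultrafilter.tendsto_pure_self q)

theorem exists_h : ∃ h : C(Ultrafilter ℕ, ℝ), {x | h x ≠ 0} = range pure := by
  let g : ℕ → Icc (0 : ℝ) 1 := fun n => ⟨1 / ((n : ℝ) + 1), by positivity, by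
    rw [div_le_one (by positivity)]; linarith [(Nat.cast_nonneg n : (0 : ℝ) ≤ n)]⟩
  let h : C(Ultrafilter ℕ, ℝ) :=
    ⟨fun x => ((Ultrafilter.extend g x : Icc (0 : ℝ) 1) : ℝ),
      continuous_subtype_val.comp (continuous_ultrafilter_extend g)⟩
  have hp : ∀ n : ℕ, h (pure n) = 1 / ((n : ℝ) + 1) := by
    intro n
    have := congrFun (ultrafilter_extend_extends g) n
    simp only [Function.comp] at this
    show ((Ultrafilter.extend g (pure n) : Icc (0 : ℝ) 1) : ℝ) = _
    rw [this]
  refine ⟨h, ?_⟩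
  ext x
  constructor
  · intro hx
    rcases x.le_cofinite_or_eq_pure with h1 | ⟨a, rfl⟩
    · exfalso
      apply hx
      have h2 := lim_pure h x
      simp only [hp] at h2
      rw [Nat.cofinite_eq_atTop] at h1
      exact tendsto_nhds_unique h2 (tendsto_one_div_add_atTop_nhds_zero_nat.mono_left h1)
    · exact ⟨a, rfl⟩
  · rintro ⟨n, rfl⟩
    show h (pure n) ≠ 0
    rw [hp]
    positivity

theorem pure_mem {U : Set (Ultrafilter ℕ)} (hU : Dense U) (n : ℕ) : pure n ∈ U := by
  obtain ⟨x, hx, hxU⟩ := hU.inter_open_nonempty _ (ultrafilter_isOpen_basic ({n} : Set ℕ))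
    ⟨pure n, by simp⟩
  have : x = pure n := by
    obtain ⟨a, ha, rfl⟩ := Ultrafilter.eq_pure_of_finite_mem (finite_singleton n) hx
    rw [mem_singleton_iff.1 ha]
  rwa [← this]

theorem not_pn : ¬ PerfNormal (Ultrafilter ℕ) := by
  intro H
  obtain ⟨h, hh⟩ := H {hyperfilter ℕ} isClosed_singleton
  have h0 : h (hyperfilter ℕ) = 0 := by
    have : hyperfilter ℕ ∈ {x | h x = 0} := hh ▸ mem_singleton _
    exact this
  have hl := lim_pure h (hyperfilter ℕ)
  rw [h0] at hl
  have hfr : ∀ k : ℕ, ∃ᶠ n in atTop, |h (pure n)| < 1 / ((k : ℝ) + 1) := by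
    intro k
    have h1 : ∀ᶠ n in (hyperfilter ℕ : Filter ℕ), |h (pure n)| < 1 / ((k : ℝ) + 1) := by
      have := hl.abs
      rw [abs_zero] at this
      exact this.eventually (gt_mem_nhds (by positivity))
    have h2 : (hyperfilter ℕ : Filter ℕ) ≤ atTop := by
      rw [← Nat.cofinite_eq_atTop]; exact hyperfilter_le_cofinite
    exact h1.frequently.filter_mono h2
  obtain ⟨φ, hφ, hφ2⟩ := extraction_forall_of_frequently hfr
  have hlim : Tendsto (fun k => h (pure (φ k))) atTop (𝓝 0) := by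
    rw [tendsto_zero_iff_abs_tendsto_zero]
    exact squeeze_zero (fun _ => abs_nonneg _) (fun k => (hφ2 k).le)
      tendsto_one_div_add_atTop_nhds_zero_nat
  have hyp : (hyperfilter ℕ : Filter ℕ) ≤ atTop := by
    rw [← Nat.cofinite_eq_atTop]; exact hyperfilter_le_cofinite
  have key : ∀ i : ℕ, Ultrafilter.map (fun k => φ (2 * k + i)) (hyperfilter ℕ) = hyperfilter ℕ := by
    intro i
    have h1 := lim_pure h (Ultrafilter.map (fun k => φ (2 * k + i)) (hyperfilter ℕ))
    have h2 : Tendsto (fun n : ℕ => h (pure n))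
        (Ultrafilter.map (fun k => φ (2 * k + i)) (hyperfilter ℕ)) (𝓝 0) := by
      rw [Ultrafilter.coe_map, tendsto_map'_iff]
      have h3 : Tendsto (fun k : ℕ => 2 * k + i) atTop atTop :=
        tendsto_atTop_mono (fun k => by simp only [id]; omega) tendsto_id
      exact (hlim.comp h3).mono_left hyp
    have h4 := tendsto_nhds_unique h1 h2
    have : Ultrafilter.map (fun k => φ (2 * k + i)) (hyperfilter ℕ) ∈ {x | h x = 0} := h4
    rw [← hh] at this
    exact this
  have m : ∀ i : ℕ, range (fun k => φ (2 * k + i)) ∈ hyperfilter ℕ := by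
    intro i
    rw [← key i]
    exact range_mem_map
  obtain ⟨n, ⟨a, ha⟩, ⟨b, hb⟩⟩ := (hyperfilter ℕ).nonempty_of_mem (inter_mem (m 0) (m 1))
  have := hφ.injective (ha.trans hb.symm)
  omega

theorem result : ∃ (X : Type) (_ : TopologicalSpace X),
    CompactSpace X ∧ T2Space X ∧ ¬ PerfNormal X ∧ T1set X = T2set X := by
  refine ⟨Ultrafilter ℕ, inferInstance, inferInstance, inferInstance, not_pn, ?_⟩
  ext f
  constructor
  · rintro ⟨U, -, hU, hf⟩
    obtain ⟨h, hh⟩ := exists_h
    refine ⟨h, ?_, ?_⟩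
    · rw [hh]; exact denseRange_pure
    · rw [hh]
      refine hf.mono ?_
      rintro _ ⟨n, rfl⟩
      exact pure_mem hU n
  · rintro ⟨h, hd, hf⟩
    exact ⟨_, isOpen_ne_fun h.continuous continuous_const, hd, hf⟩

end Pool.Agent.Results.MP_14365a_gt.Example
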